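import Pool.Agent.H456.Conf.Exists
import Pool.Agent.H456.Mat.Sparse

/-!
# Highly connected represented matroids from good matrices
-/

open Finset Module

open scoped Classical

namespace Pool.Agent.H456.Conf

variable {F : Type} [Field F] {r : ℕ}

theorem exists_enum {J : ℕ} (S : Finset (Fin r)) (hS : #S ≤ J) (hr : 0 < r) :
    ∃ a : Fin J → Fin r, S ⊆ univ.image a ∧ ∀ x : Fin r → F, (∀ i, i ∉ S → x i = 0) →
      ∃ c : Fin J → F, ∀ f : Fin r → F, ∑ t, c t * f (a t) = ∑ i, x i * f i := by
  let e : Fin #S → Fin r := fun t => S.orderEmbOfFin rfl t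
  have heS : ∀ t, e t ∈ S := fun t => S.orderEmbOfFin_mem rfl t
  have hes : ∀ i ∈ S, ∃ t, e t = i := by
    intro i hi
    have : (i : Fin r) ∈ Set.range (S.orderEmbOfFin rfl) := by
      rw [range_orderEmbOfFin]; exact hi
    exact this
  refine ⟨fun t => if h : (t : ℕ) < #S then e ⟨t, h⟩ else ⟨0, hr⟩, ?_, ?_⟩
  · intro i hi
    obtain ⟨t, rfl⟩ := hes i hi
    rw [mem_image]
    exact ⟨Fin.castLE hS t, mem_univ _, by simp⟩
  · intro x hx
    refine ⟨fun t => if h : (t : ℕ) < #S then x (e ⟨t, h⟩) else 0, fun f => ?_⟩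
    have h1 : ∑ t : Fin #S, x (e t) * f (e t) = ∑ t : Fin J,
        (if h : (t : ℕ) < #S then x (e ⟨t, h⟩) else 0) *
          f (if h : (t : ℕ) < #S then e ⟨t, h⟩ else ⟨0, hr⟩) := by
      apply Fintype.sum_of_injective (Fin.castLE hS) (Fin.castLE_injective hS)
      · intro t ht
        have : ¬ (t : ℕ) < #S := by
          intro h
          exact ht ⟨⟨t, h⟩, rfl⟩
        rw [dif_neg this, zero_mul]
      · intro t
        simp
    rw [← h1]
    have h2 : ∑ i, x i * f i = ∑ i ∈ S, x i * f i := by
      symm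
      apply sum_subset (subset_univ _)
      intro i _ hi
      rw [hx i hi, zero_mul]
    rw [h2]
    have h3 : S = univ.map (S.orderEmbOfFin rfl).toEmbedding := by
      ext i
      simp only [mem_map, mem_univ, true_and]
      exact ⟨fun hi => hes i hi, fun ⟨t, ht⟩ => ht ▸ heS t⟩
    conv_rhs => rw [h3]
    rw [sum_map]
    rfl

/-- The row space of `[I | θ A]`. -/
def UU (θ : F) (A : Fin r → Fin r → Bool) : Submodule F (Fin (r + r) → F) where
  carrier := {u | ∀ j, u (Fin.natAdd r j) = θ * ∑ i, u (Fin.castAdd r i) * ev (A i j)}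
  add_mem' := by
    intro a b ha hb j
    simp only [Pi.add_apply, add_mul, sum_add_distrib, mul_add]
    rw [ha j, hb j]
  zero_mem' := by
    intro j
    simp
  smul_mem' := by
    intro c a ha j
    simp only [Pi.smul_apply, smul_eq_mul, mul_assoc]
    rw [ha j, ← mul_sum]
    ring

theorem mem_UU {θ : F} {A : Fin r → Fin r → Bool} {u : Fin (r + r) → F} : u ∈ UU θ A ↔
    ∀ j, u (Fin.natAdd r j) = θ * ∑ i, u (Fin.castAdd r i) * ev (A i j) := Iff.rfl

/-- The vector of the row space with given first half. -/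
def vec (θ : F) (A : Fin r → Fin r → Bool) (x : Fin r → F) : Fin (r + r) → F :=
  Fin.append x fun j => θ * ∑ i, x i * ev (A i j)

theorem vec_mem (θ : F) (A : Fin r → Fin r → Bool) (x : Fin r → F) : vec θ A x ∈ UU θ A := by
  intro j
  unfold vec
  rw [Fin.append_right]
  congr 1
  exact sum_congr rfl fun i _ => by rw [Fin.append_left]

theorem eq_zero_of_left {θ : F} {A : Fin r → Fin r → Bool} {u : Fin (r + r) → F}
    (hu : u ∈ UU θ A) (h : ∀ i, u (Fin.castAdd r i) = 0) : u = 0 := by
  funext e
  refine Fin.addCases (fun i => h i) (fun j => ?_) e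
  rw [hu j]
  simp [h]

theorem finrank_UU (θ : F) (A : Fin r → Fin r → Bool) : finrank F (UU θ A) = r := by
  let f : UU θ A →ₗ[F] (Fin r → F) := (LinearMap.funLeft F F (Fin.castAdd r)) ∘ₗ (UU θ A).subtype
  have hinj : Function.Injective f := by
    rw [injective_iff_map_eq_zero]
    intro u hu
    exact Subtype.ext (eq_zero_of_left u.2 fun i => congrFun hu i)
  have hsurj : Function.Surjective f := by
    intro x
    refine ⟨⟨vec θ A x, vec_mem θ A x⟩, ?_⟩
    funext i
    change vec θ A x (Fin.castAdd r i) = x i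
    unfold vec
    rw [Fin.append_left]
  have := (LinearEquiv.ofBijective f ⟨hinj, hsurj⟩).finrank_eq
  rw [this, finrank_fintype_fun_eq_card, Fintype.card_fin]

theorem card_split (X : Finset (Fin (r + r))) :
    #(univ.filter fun i => Fin.castAdd r i ∈ X) + #(univ.filter fun j => Fin.natAdd r j ∈ X) =
      #X := by
  have h1 : X = (univ.filter fun i => Fin.castAdd r i ∈ X).map (Fin.castAddEmb r) ∪
      (univ.filter fun j => Fin.natAdd r j ∈ X).map (Fin.natAddEmb r) := by
    ext e
    rw [mem_union, mem_map, mem_map]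
    refine Fin.addCases (fun i => ?_) (fun j => ?_) e
    · constructor
      · intro h
        exact Or.inl ⟨i, mem_filter.2 ⟨mem_univ _, h⟩, rfl⟩
      · rintro (⟨i', hi', h⟩ | ⟨j, hj, h⟩)
        · have h2 : Fin.castAdd r i' = Fin.castAdd r i := h
          rw [← h2]
          exact (mem_filter.1 hi').2
        · have h2 : Fin.natAdd r j = Fin.castAdd r i := h
          have := congrArg Fin.val h2
          simp at this
          omega
    · constructor
      · intro h
        exact Or.inr ⟨j, mem_filter.2 ⟨mem_univ _, h⟩, rfl⟩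
      · rintro (⟨i', hi', h⟩ | ⟨j', hj, h⟩)
        · have h2 : Fin.castAdd r i' = Fin.natAdd r j := h
          have := congrArg Fin.val h2
          simp at this
          omega
        · have h2 : Fin.natAdd r j' = Fin.natAdd r j := h
          rw [← h2]
          exact (mem_filter.1 hj).2
  conv_rhs => rw [h1]
  rw [card_union_of_disjoint, card_map, card_map]
  rw [disjoint_left]
  intro e he he'
  obtain ⟨i, _, rfl⟩ := mem_map.1 he
  obtain ⟨j, _, hj⟩ := mem_map.1 he'
  have h2 : Fin.natAdd r j = Fin.castAdd r i := hj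
  have := congrArg Fin.val h2
  simp at this
  omega

variable {θ : F} {A : Fin r → Fin r → Bool}

theorem cogirth {J : ℕ} (hr : 0 < r) (hθ : θ ≠ 0) (hA : ¬ badRow F J A) {u : Fin (r + r) → F}
    (hu : u ∈ UU θ A) (hu0 : u ≠ 0) : J < #(spt u) := by
  by_contra hle
  push Not at hle
  apply hA
  have hsplit := card_split (spt u)
  obtain ⟨a, _, ha⟩ := exists_enum (F := F) (J := J)
    (univ.filter fun i => Fin.castAdd r i ∈ spt u) (by omega) hr
  obtain ⟨g, hg, _⟩ := exists_enum (F := F) (J := J)
    (univ.filter fun j => Fin.natAdd r j ∈ spt u) (by omega) hr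
  obtain ⟨c, hc⟩ := ha (fun i => u (Fin.castAdd r i)) (by
    intro i hi
    by_contra h
    exact hi (mem_filter.2 ⟨mem_univ _, mem_spt.2 h⟩))
  refine ⟨a, c, g, ?_, ?_⟩
  · intro h0
    apply hu0
    apply eq_zero_of_left hu
    intro i
    have h1 := congrFun h0 i
    rw [Finset.sum_apply] at h1
    have h2 := hc (fun i' => (Pi.single i' 1 : Fin r → F) i)
    simp only [Pi.smul_apply, smul_eq_mul] at h1
    rw [h1] at h2
    rw [sum_eq_single i] at h2
    · rw [Pi.single_eq_same, mul_one] at h2
      exact h2.symm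
    · intro i' _ hi'
      rw [Pi.single_eq_of_ne (Ne.symm hi'), mul_zero]
    · intro h'
      exact absurd (mem_univ _) h'
  · intro j hj
    rw [hc (fun i => ev (A i j))]
    have h1 : u (Fin.natAdd r j) = 0 := by
      by_contra h
      exact (mem_compl.1 hj) (hg (mem_filter.2 ⟨mem_univ _, mem_spt.2 h⟩))
    rw [hu j] at h1
    exact (mul_eq_zero.1 h1).resolve_left hθ

theorem dual_rel {v : Fin (r + r) → F} (hv : v ∈ dual (UU θ A)) (i : Fin r) :
    v (Fin.castAdd r i) = - (θ * ∑ j, v (Fin.natAdd r j) * ev (A i j)) := by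
  have h1 := hv _ (vec_mem θ A (Pi.single i 1))
  rw [Fin.sum_univ_add] at h1
  simp only [vec, Fin.append_left, Fin.append_right, Pi.single_apply, ite_mul, one_mul, zero_mul,
    mul_ite, mul_one, mul_zero, sum_ite_eq', mem_univ, if_true] at h1
  rw [eq_neg_iff_add_eq_zero, ← h1, mul_sum]
  congr 1
  exact sum_congr rfl fun j _ => by ring

theorem girth {J : ℕ} (hr : 0 < r) (hθ : θ ≠ 0) (hA : ¬ badRow F J fun i j => A j i)
    {v : Fin (r + r) → F} (hv : v ∈ dual (UU θ A)) (hv0 : v ≠ 0) : J < #(spt v) := by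
  by_contra hle
  push Not at hle
  apply hA
  have hsplit := card_split (spt v)
  obtain ⟨a, _, ha⟩ := exists_enum (F := F) (J := J)
    (univ.filter fun j => Fin.natAdd r j ∈ spt v) (by omega) hr
  obtain ⟨g, hg, _⟩ := exists_enum (F := F) (J := J)
    (univ.filter fun i => Fin.castAdd r i ∈ spt v) (by omega) hr
  obtain ⟨c, hc⟩ := ha (fun j => v (Fin.natAdd r j)) (by
    intro j hj
    by_contra h
    exact hj (mem_filter.2 ⟨mem_univ _, mem_spt.2 h⟩))
  refine ⟨a, c, g, ?_, ?_⟩
  · intro h0
    apply hv0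
    have hy : ∀ j, v (Fin.natAdd r j) = 0 := by
      intro j
      have h1 := congrFun h0 j
      rw [Finset.sum_apply] at h1
      have h2 := hc (fun j' => (Pi.single j' 1 : Fin r → F) j)
      simp only [Pi.smul_apply, smul_eq_mul] at h1
      rw [h1] at h2
      rw [sum_eq_single j] at h2
      · rw [Pi.single_eq_same, mul_one] at h2
        exact h2.symm
      · intro j' _ hj'
        rw [Pi.single_eq_of_ne (Ne.symm hj'), mul_zero]
      · intro h'
        exact absurd (mem_univ _) h'
    funext e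
    refine Fin.addCases (fun i => ?_) (fun j => hy j) e
    rw [dual_rel hv i, sum_eq_zero fun j _ => by rw [hy j, zero_mul]]
    rw [mul_zero, neg_zero]
    rfl
  · intro i hi
    rw [hc (fun j => ev (A i j))]
    have h1 : v (Fin.castAdd r i) = 0 := by
      by_contra h
      exact (mem_compl.1 hi) (hg (mem_filter.2 ⟨mem_univ _, mem_spt.2 h⟩))
    rw [dual_rel hv i, neg_eq_zero] at h1
    exact (mul_eq_zero.1 h1).resolve_left hθ

end Pool.Agent.H456.Conf
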