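import Pool.Agent.H456.Conf.Union

/-!
# Existence of a good zero-one matrix
-/

open Finset Filter

open scoped Classical Topology

namespace Pool.Agent.H456.Conf

variable {F : Type} [Field F]

theorem exists_large (J C N₀ : ℕ) : ∃ r : ℕ, N₀ ≤ r ∧ 0 < r ∧ C * r ^ J ≤ 2 ^ r := by
  have h1 := tendsto_pow_const_div_const_pow_of_one_lt J (r := (2 : ℝ)) one_lt_two
  have h2 : ∀ᶠ n : ℕ in atTop, (n : ℝ) ^ J / 2 ^ n < 1 / (C + 1) :=
    h1.eventually_lt_const (by positivity)
  obtain ⟨r, hr1, hr2⟩ := (h2.and (eventually_ge_atTop (N₀ + 1))).exists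
  refine ⟨r, by omega, by omega, ?_⟩
  rw [div_lt_div_iff₀ (by positivity) (by positivity), one_mul] at hr1
  have h3 : (C : ℝ) * (r : ℝ) ^ J ≤ 2 ^ r := by
    have : (0 : ℝ) ≤ (r : ℝ) ^ J := by positivity
    nlinarith
  exact_mod_cast h3

/-- The first kind of bad event: a combination of few rows has small support. -/
def badRow (F : Type) [Field F] {r : ℕ} (J : ℕ) (A : Fin r → Fin r → Bool) : Prop :=
  ∃ (a : Fin J → Fin r) (c : Fin J → F) (g : Fin J → Fin r),
    (∑ t, c t • (Pi.single (a t) 1 : Fin r → F)) ≠ 0 ∧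
    ∀ j ∈ (univ.image g)ᶜ, ∑ t, c t * ev (A (a t) j) = 0

/-- The second kind of bad event: two complementary blocks of small rank. -/
def badBlk (F : Type) [Field F] {r : ℕ} (k m : ℕ) (A : Fin r → Fin r → Bool) : Prop :=
  ∃ (P Q : Finset (Fin r)) (β : Fin k → Fin r) (w : Fin r → Fin k → F),
    2 * m ≤ #P + #Q ∧ #P + #Q ≤ r ∧ blk P Q β w A

variable [Fintype F]

theorem card_badRow {r : ℕ} (J : ℕ)
    (h : 4 * (2 * Fintype.card F) ^ J * r ^ (2 * J) ≤ 2 ^ r) :
    4 * #(univ.filter fun A : Fin r → Fin r → Bool => badRow F J A) ≤ 2 ^ (r * r) := by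
  set q := Fintype.card F with hq
  let I := (Fin J → Fin r) × (Fin J → F) × (Fin J → Fin r)
  let X : I → Finset (Fin r → Fin r → Bool) := fun p =>
    if (∑ t, p.2.1 t • (Pi.single (p.1 t) 1 : Fin r → F)) ≠ 0 then
    univ.filter fun A : Fin r → Fin r → Bool =>
      ∀ j ∈ (univ.image p.2.2)ᶜ, ∑ t, p.2.1 t * ev (A (p.1 t) j) = 0 else ∅
  have hX : ∀ p, #(X p) * 2 ^ r ≤ 2 ^ (r * r) * 2 ^ J := by
    intro p
    simp only [X]
    split_ifs with hp
    · have h1 := card_row_rel p.1 p.2.1 hp (univ.image p.2.2)ᶜ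
      have h2 : r ≤ #(univ.image p.2.2)ᶜ + J := by
        rw [card_compl, Fintype.card_fin]
        have : #(univ.image p.2.2) ≤ J := card_image_le.trans (by rw [card_univ, Fintype.card_fin])
        omega
      calc _ ≤ #(univ.filter fun A : Fin r → Fin r → Bool =>
            ∀ j ∈ (univ.image p.2.2)ᶜ, ∑ t, p.2.1 t * ev (A (p.1 t) j) = 0) *
              2 ^ (#(univ.image p.2.2)ᶜ + J) :=
            Nat.mul_le_mul_left _ (Nat.pow_le_pow_right (by norm_num) h2)
        _ = (#(univ.filter fun A : Fin r → Fin r → Bool =>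
            ∀ j ∈ (univ.image p.2.2)ᶜ, ∑ t, p.2.1 t * ev (A (p.1 t) j) = 0) *
              2 ^ #(univ.image p.2.2)ᶜ) * 2 ^ J := by rw [pow_add, mul_assoc]
        _ ≤ _ := Nat.mul_le_mul_right _ h1
    · simp
  have hsub : (univ.filter fun A : Fin r → Fin r → Bool => badRow F J A) ⊆ univ.biUnion X := by
    intro A hA
    obtain ⟨a, c, g, h1, h2⟩ := (mem_filter.1 hA).2
    rw [mem_biUnion]
    refine ⟨(a, c, g), mem_univ _, ?_⟩
    simp only [X]
    rw [if_pos h1]
    exact mem_filter.2 ⟨mem_univ _, h2⟩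
  have hcard : #(univ.filter fun A : Fin r → Fin r → Bool => badRow F J A) * 2 ^ r ≤
      (r ^ J * (q ^ J * r ^ J)) * (2 ^ (r * r) * 2 ^ J) := by
    calc _ ≤ (∑ p, #(X p)) * 2 ^ r :=
          Nat.mul_le_mul_right _ ((card_le_card hsub).trans card_biUnion_le)
      _ = ∑ p, #(X p) * 2 ^ r := by rw [sum_mul]
      _ ≤ ∑ _p : I, 2 ^ (r * r) * 2 ^ J := sum_le_sum fun p _ => hX p
      _ = _ := by
        rw [sum_const, card_univ, smul_eq_mul]
        simp only [I, Fintype.card_prod, Fintype.card_fun, Fintype.card_fin, hq]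
  have h3 : 4 * (#(univ.filter fun A : Fin r → Fin r → Bool => badRow F J A) * 2 ^ r) ≤
      2 ^ (r * r) * 2 ^ r := by
    calc _ ≤ 4 * ((r ^ J * (q ^ J * r ^ J)) * (2 ^ (r * r) * 2 ^ J)) :=
          Nat.mul_le_mul_left _ hcard
      _ = 2 ^ (r * r) * (4 * (2 * q) ^ J * r ^ (2 * J)) := by
          rw [two_mul J, pow_add, mul_pow]; ring
      _ ≤ _ := Nat.mul_le_mul_left _ h
  rw [← mul_assoc] at h3
  exact Nat.le_of_mul_le_mul_right h3 (Nat.pow_pos (by norm_num))

theorem card_badBlk {r k : ℕ} (hr : 0 < r) :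
    4 * #(univ.filter fun A : Fin r → Fin r → Bool =>
      badBlk F k (2 * k + Fintype.card F * k + 4) A) ≤ 2 ^ (r * r) := by
  set q := Fintype.card F with hq
  set m := 2 * k + q * k + 4 with hm
  let I := Finset (Fin r) × Finset (Fin r) × (Fin k → Fin r) × (Fin r → Fin k → F)
  let X : I → Finset (Fin r → Fin r → Bool) := fun p =>
    if 2 * m ≤ #p.1 + #p.2.1 ∧ #p.1 + #p.2.1 ≤ r then
    univ.filter fun A : Fin r → Fin r → Bool => blk p.1 p.2.1 p.2.2.1 p.2.2.2 A else ∅
  have hX : ∀ p, #(X p) * 2 ^ (r * m) ≤ 2 ^ (r * r + k * r) := by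
    intro p
    simp only [X]
    split_ifs with hp
    · exact card_blk _ _ _ _ hp.1 hp.2
    · simp
  have hsub : (univ.filter fun A : Fin r → Fin r → Bool => badBlk F k m A) ⊆
      univ.biUnion X := by
    intro A hA
    obtain ⟨P, Q, β, w, h1, h2, h3⟩ := (mem_filter.1 hA).2
    rw [mem_biUnion]
    refine ⟨(P, Q, β, w), mem_univ _, ?_⟩
    simp only [X]
    rw [if_pos ⟨h1, h2⟩]
    exact mem_filter.2 ⟨mem_univ _, h3⟩
  set b := #(univ.filter fun A : Fin r → Fin r → Bool => badBlk F k m A) with hb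
  have hcard : b * 2 ^ (r * m) ≤
      (2 ^ r * (2 ^ r * (r ^ k * (q ^ k) ^ r))) * 2 ^ (r * r + k * r) := by
    calc _ ≤ (∑ p, #(X p)) * 2 ^ (r * m) :=
          Nat.mul_le_mul_right _ ((card_le_card hsub).trans card_biUnion_le)
      _ = ∑ p, #(X p) * 2 ^ (r * m) := by rw [sum_mul]
      _ ≤ ∑ _p : I, 2 ^ (r * r + k * r) := sum_le_sum fun p _ => hX p
      _ = _ := by
        rw [sum_const, card_univ, smul_eq_mul]
        simp only [I, Fintype.card_prod, Fintype.card_fun, Fintype.card_fin,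
          Fintype.card_finset, hq]
  have h1 : r ^ k ≤ 2 ^ (r * k) := by
    rw [pow_mul]
    exact Nat.pow_le_pow_left Nat.lt_two_pow_self.le _
  have h2 : (q ^ k) ^ r ≤ 2 ^ (q * k * r) := by
    rw [pow_mul, pow_mul]
    exact Nat.pow_le_pow_left (Nat.pow_le_pow_left Nat.lt_two_pow_self.le _) _
  have h3 : b * 2 ^ (r * m) ≤ 2 ^ (r + (r + (r * k + q * k * r)) + (r * r + k * r)) := by
    refine hcard.trans ?_
    rw [pow_add 2 (r + _) (r * r + k * r), pow_add 2 r (r + _), pow_add 2 r (_ + _),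
      pow_add 2 (r * k)]
    exact Nat.mul_le_mul_right _ (Nat.mul_le_mul_left _ (Nat.mul_le_mul_left _
      (Nat.mul_le_mul h1 h2)))
  have h4 : b * 2 ^ (2 * r) ≤ 2 ^ (r * r) := by
    have h5 : r * m = 2 * r + (r + r + r * k + q * k * r + k * r) := by
      rw [hm]; ring
    have h6 : r + (r + (r * k + q * k * r)) + (r * r + k * r) =
        r * r + (r + r + r * k + q * k * r + k * r) := by ring
    rw [h5, h6, pow_add 2 (2 * r), pow_add 2 (r * r), ← mul_assoc] at h3
    exact Nat.le_of_mul_le_mul_right h3 (Nat.pow_pos (by norm_num))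
  have h5 : 4 ≤ 2 ^ (2 * r) := by
    calc 4 = 2 ^ 2 := by norm_num
      _ ≤ 2 ^ (2 * r) := Nat.pow_le_pow_right (by norm_num) (by omega)
  calc 4 * b = b * 4 := mul_comm _ _
    _ ≤ b * 2 ^ (2 * r) := Nat.mul_le_mul_left _ h5
    _ ≤ _ := h4

/-- **A good matrix.** -/
theorem exists_good (k N₀ : ℕ) : ∃ (m r : ℕ) (A : Fin r → Fin r → Bool), k + 4 ≤ m ∧
    N₀ ≤ r ∧ 0 < r ∧ ¬ badRow F (2 * m) A ∧ ¬ badRow F (2 * m) (fun i j => A j i) ∧
    ¬ badBlk F k m A := by
  set q := Fintype.card F with hq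
  set m := 2 * k + q * k + 4 with hm
  obtain ⟨r, hr1, hr2, hr3⟩ := exists_large (2 * (2 * m)) (4 * (2 * q) ^ (2 * m)) N₀
  have h1 := card_badRow (F := F) (r := r) (2 * m) (by rw [← hq]; exact hr3)
  have h2 := card_transpose (r := r) (fun A => badRow F (2 * m) A)
  have h3 := card_badBlk (F := F) (r := r) (k := k) hr2
  rw [← hq, ← hm] at h3
  obtain ⟨A, hA⟩ : ∃ A : Fin r → Fin r → Bool, ¬ (badRow F (2 * m) A ∨
      badRow F (2 * m) (fun i j => A j i) ∨ badBlk F k m A) := by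
    by_contra hall
    rw [not_exists] at hall
    have h4 : (univ : Finset (Fin r → Fin r → Bool)) ⊆
        (univ.filter fun A => badRow F (2 * m) A) ∪
        ((univ.filter fun A => badRow F (2 * m) (fun i j => A j i)) ∪
        (univ.filter fun A => badBlk F k m A)) := by
      intro A _
      simp only [mem_union, mem_filter, mem_univ, true_and]
      exact not_not.1 (hall A)
    have h5 := (card_le_card h4).trans ((card_union_le _ _).trans
      (Nat.add_le_add_left (card_union_le _ _) _))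
    have h6 : #(univ : Finset (Fin r → Fin r → Bool)) = 2 ^ (r * r) := by
      rw [card_univ, Fintype.card_fun, Fintype.card_fun, Fintype.card_fin, Fintype.card_bool,
        pow_mul]
    rw [h6, h2] at h5
    have h7 : 0 < 2 ^ (r * r) := Nat.pow_pos (by norm_num)
    omega
  push Not at hA
  exact ⟨m, r, A, by rw [hm]; nlinarith [Nat.zero_le (q * k)], hr1, hr2, hA.1, hA.2.1, hA.2.2⟩

end Pool.Agent.H456.Conf
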