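import Pool.Agent.H456.Conf.KC

/-!
# Bounded rank perturbations of frame matroids have small cocircuits
-/

open Finset Module

open scoped Classical

namespace Pool.Agent.H456.Conf

variable {F : Type} [Field F]

/-- The image of a subspace of small codimension has small codimension in the range. -/
theorem finrank_range_le_map {V W : Type} [AddCommGroup V] [Module F V] [FiniteDimensional F V]
    [AddCommGroup W] [Module F W] (f : V →ₗ[F] W) (K : Submodule F V) {t : ℕ}
    (hK : finrank F V ≤ finrank F K + t) :
    finrank F (LinearMap.range f) ≤ finrank F (K.map f) + t := by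
  have h1 := LinearMap.finrank_range_add_finrank_ker f
  have h2 := LinearMap.finrank_range_add_finrank_ker (f.domRestrict K)
  have h3 : LinearMap.range (f.domRestrict K) = K.map f := by
    rw [LinearMap.domRestrict, LinearMap.range_comp, Submodule.range_subtype]
  have h4 : finrank F (LinearMap.ker (f.domRestrict K)) ≤ finrank F (LinearMap.ker f) := by
    have h5 : finrank F ((LinearMap.ker (f.domRestrict K)).map K.subtype) =
        finrank F (LinearMap.ker (f.domRestrict K)) :=
      (Submodule.equivMapOfInjective _ K.injective_subtype _).finrank_eq.symm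
    rw [← h5]
    apply Submodule.finrank_mono
    rintro _ ⟨y, hy, rfl⟩
    exact hy
  rw [h3] at h2
  omega

/-- A rank-`(≤ t)` perturbation shares a subspace of codimension at most `t` with the original. -/
theorem perturb_inter {n t : ℕ} {N U : Submodule F (Fin n → F)} (h : Perturb t N U) :
    finrank F N ≤ finrank F (N ⊓ U : Submodule F (Fin n → F)) + t ∧
      finrank F U ≤ finrank F (N ⊓ U : Submodule F (Fin n → F)) + t := by
  obtain ⟨m, A, P, rfl, hP, rfl⟩ := h
  have hrange : ∀ B : Matrix (Fin m) (Fin n) F,
      LinearMap.range B.vecMulLinear = rowSpace B := by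
    intro B
    ext y
    rw [LinearMap.mem_range, rowSpace, Submodule.mem_span_range_iff_exists_fun]
    have hsum : ∀ x : Fin m → F, B.vecMulLinear x = ∑ i, x i • B i := by
      intro x
      rw [Matrix.vecMulLinear_apply, Matrix.vecMul_eq_sum]
    constructor
    · rintro ⟨x, hx⟩
      exact ⟨x, by rw [← hx, hsum]⟩
    · rintro ⟨x, hx⟩
      exact ⟨x, by rw [← hx, hsum]⟩
  have hPr : finrank F (LinearMap.range P.vecMulLinear) ≤ t := by
    have h1 := Matrix.rank_eq_finrank_span_row P
    rw [hrange]
    rw [h1] at hP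
    exact hP
  set K := LinearMap.ker P.vecMulLinear with hK
  have hKc : finrank F (Fin m → F) ≤ finrank F K + t := by
    have := LinearMap.finrank_range_add_finrank_ker P.vecMulLinear
    rw [← this, add_comm]
    exact Nat.add_le_add_left hPr _
  have hAK : K.map A.vecMulLinear ≤ rowSpace A ⊓ rowSpace (A + P) := by
    rintro _ ⟨x, hx, rfl⟩
    refine ⟨?_, ?_⟩
    · rw [SetLike.mem_coe, ← hrange]
      exact ⟨x, rfl⟩
    · rw [SetLike.mem_coe, ← hrange]
      refine ⟨x, ?_⟩
      have h0 : Matrix.vecMul x P = 0 := hx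
      change Matrix.vecMul x (A + P) = Matrix.vecMul x A
      rw [Matrix.vecMul_add, h0, add_zero]
  have hBK : K.map (A + P).vecMulLinear ≤ rowSpace A ⊓ rowSpace (A + P) := by
    rintro _ ⟨x, hx, rfl⟩
    have h0 : Matrix.vecMul x P = 0 := hx
    have h1 : (A + P).vecMulLinear x = A.vecMulLinear x := by
      change Matrix.vecMul x (A + P) = Matrix.vecMul x A
      rw [Matrix.vecMul_add, h0, add_zero]
    rw [h1]
    exact hAK ⟨x, hx, rfl⟩
  constructor
  · have := finrank_range_le_map A.vecMulLinear K hKc
    rw [hrange] at this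
    exact this.trans (Nat.add_le_add_right (Submodule.finrank_mono hAK) _)
  · have := finrank_range_le_map (A + P).vecMulLinear K hKc
    rw [hrange] at this
    exact this.trans (Nat.add_le_add_right (Submodule.finrank_mono hBK) _)

theorem dual_anti {n : ℕ} {U V : Submodule F (Fin n → F)} (h : U ≤ V) : dual V ≤ dual U :=
  fun _ hx u hu => hx u (h hu)

theorem dual_sup {n : ℕ} (U V : Submodule F (Fin n → F)) :
    dual (U ⊔ V) = dual U ⊓ dual V := by
  apply le_antisymm
  · exact le_inf (dual_anti le_sup_left) (dual_anti le_sup_right)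
  · rintro x ⟨hx, hx'⟩ u hu
    obtain ⟨a, ha, b, hb, rfl⟩ := Submodule.mem_sup.1 hu
    have h1 : ∀ i, x i * (a + b) i = x i * a i + x i * b i := fun i => by
      rw [Pi.add_apply, mul_add]
    rw [sum_congr rfl fun i _ => h1 i, sum_add_distrib, hx a ha, hx' b hb, add_zero]

/-- The duals share a subspace of the same codimension. -/
theorem dual_inter {n t : ℕ} {N U : Submodule F (Fin n → F)}
    (h1 : finrank F N ≤ finrank F (N ⊓ U : Submodule F (Fin n → F)) + t)
    (h2 : finrank F U ≤ finrank F (N ⊓ U : Submodule F (Fin n → F)) + t) :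
    finrank F (dual N) ≤ finrank F (dual N ⊓ dual U : Submodule F (Fin n → F)) + t ∧
      finrank F (dual U) ≤ finrank F (dual N ⊓ dual U : Submodule F (Fin n → F)) + t := by
  have e1 := finrank_dual N
  have e2 := finrank_dual U
  have e3 := finrank_dual (N ⊔ U)
  have e4 := Submodule.finrank_sup_add_finrank_inf_eq N U
  rw [dual_sup] at e3
  omega

/-- A matroid of linear rank that is close to a frame matroid has a small cocircuit. -/
theorem frame_small {n t : ℕ} {N U : Submodule F (Fin n → F)} (hN : IsFrame N)
    (h1 : finrank F N ≤ finrank F (N ⊓ U : Submodule F (Fin n → F)) + t)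
    (h2 : finrank F U ≤ finrank F (N ⊓ U : Submodule F (Fin n → F)) + t)
    (hn : n = 2 * finrank F U) (ht : 4 * t + 4 ≤ finrank F U) :
    ∃ u ∈ U, u ≠ 0 ∧ #(spt u) ≤ 8 * (t + 1) := by
  obtain ⟨m, A, hA, rfl⟩ := hN
  obtain ⟨κ, a, ha, hspan, hli⟩ := exists_linearIndependent' F (fun i : Fin m => A i)
  have hfin : Finite κ := Finite.of_injective a ha
  have : Fintype κ := Fintype.ofFinite κ
  have hrank : finrank F (rowSpace A) = Fintype.card κ := by
    rw [← finrank_span_eq_card hli, hspan, rowSpace]
  have hle : finrank F (rowSpace A ⊓ U : Submodule F (Fin n → F)) ≤ finrank F U :=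
    Submodule.finrank_mono inf_le_right
  have hle' : finrank F (rowSpace A ⊓ U : Submodule F (Fin n → F)) ≤ finrank F (rowSpace A) :=
    Submodule.finrank_mono inf_le_left
  -- count the nonzero entries
  have hcount : ∑ k : κ, #(spt (A (a k))) ≤ 2 * n := by
    have e1 : ∑ i : Fin m, #(spt (A i)) ≤ 2 * n := by
      have e2 : ∀ i, #(spt (A i)) = ∑ j : Fin n, if A i j ≠ 0 then 1 else 0 := by
        intro i
        rw [← card_filter]
        congr 1
      simp_rw [e2]
      rw [sum_comm]
      calc ∑ j : Fin n, ∑ i : Fin m, (if A i j ≠ 0 then 1 else 0)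
          ≤ ∑ _j : Fin n, 2 := by
            apply sum_le_sum
            intro j _
            rw [← card_filter]
            have e3 := hA j
            have e4 : {i | A i j ≠ 0} = ((univ.filter fun i => A i j ≠ 0 : Finset (Fin m)) :
                Set (Fin m)) := by
              ext i
              simp
            rw [e4, Set.ncard_coe_finset] at e3
            exact e3
        _ = 2 * n := by rw [sum_const, card_univ, Fintype.card_fin, smul_eq_mul, mul_comm]
    calc ∑ k : κ, #(spt (A (a k))) = ∑ i ∈ univ.map ⟨a, ha⟩, #(spt (A i)) := by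
          rw [sum_map]
          rfl
      _ ≤ ∑ i : Fin m, #(spt (A i)) := sum_le_sum_of_subset (subset_univ _)
      _ ≤ 2 * n := e1
  set L : Finset κ := univ.filter fun k => #(spt (A (a k))) ≤ 8 with hL
  have hheavy : 9 * #(Lᶜ) ≤ 2 * n := by
    calc 9 * #(Lᶜ) = ∑ _k ∈ Lᶜ, 9 := by rw [sum_const, smul_eq_mul, mul_comm]
      _ ≤ ∑ k ∈ Lᶜ, #(spt (A (a k))) := by
          apply sum_le_sum
          intro k hk
          rw [hL, mem_compl, mem_filter] at hk
          by_contra hlt
          exact hk ⟨mem_univ _, by omega⟩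
      _ ≤ ∑ k : κ, #(spt (A (a k))) := sum_le_sum_of_subset (subset_univ _)
      _ ≤ 2 * n := hcount
  have hLc : #L + #(Lᶜ) = Fintype.card κ := card_add_card_compl L
  obtain ⟨L', hL', hL'c⟩ := exists_subset_card_eq (show t + 1 ≤ #L by omega)
  set S := Submodule.span F (Set.range fun k : L' => A (a k)) with hS
  have hSr : finrank F S = t + 1 := by
    have hli' : LinearIndependent F (fun k : L' => A (a k)) :=
      hli.comp (fun k : L' => (k : κ)) Subtype.val_injective
    rw [hS, finrank_span_eq_card hli', Fintype.card_coe, hL'c]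
  have hSN : S ≤ rowSpace A := by
    rw [hS, Submodule.span_le]
    rintro _ ⟨k, rfl⟩
    exact Submodule.subset_span ⟨a k, rfl⟩
  have hne : (S ⊓ (rowSpace A ⊓ U) : Submodule F (Fin n → F)) ≠ ⊥ := by
    intro h0
    have e1 := Submodule.finrank_sup_add_finrank_inf_eq S (rowSpace A ⊓ U)
    rw [h0, finrank_bot] at e1
    have e2 : finrank F (S ⊔ (rowSpace A ⊓ U) : Submodule F (Fin n → F)) ≤
        finrank F (rowSpace A) := Submodule.finrank_mono (sup_le hSN inf_le_left)
    omega
  obtain ⟨u, ⟨huS, _, huU⟩, hu0⟩ := (Submodule.ne_bot_iff _).1 hne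
  refine ⟨u, huU, hu0, ?_⟩
  have hspt : spt u ⊆ L'.biUnion fun k => spt (A (a k)) := by
    intro i hi
    rw [mem_spt] at hi
    by_contra hnot
    apply hi
    rw [mem_biUnion] at hnot
    push Not at hnot
    have : ∀ x ∈ S, x i = 0 := by
      intro x hx
      induction hx using Submodule.span_induction with
      | mem x hx =>
        obtain ⟨k, rfl⟩ := hx
        have := hnot k k.2
        rw [mem_spt, not_not] at this
        exact this
      | zero => rfl
      | add x y _ _ hx hy => rw [Pi.add_apply, hx, hy, add_zero]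
      | smul c x _ hx => rw [Pi.smul_apply, hx, smul_zero]
    exact this u huS
  calc #(spt u) ≤ #(L'.biUnion fun k => spt (A (a k))) := card_le_card hspt
    _ ≤ ∑ k ∈ L', #(spt (A (a k))) := card_biUnion_le
    _ ≤ ∑ _k ∈ L', 8 := sum_le_sum fun k hk => (mem_filter.1 (hL' hk)).2
    _ = 8 * (t + 1) := by rw [sum_const, hL'c, smul_eq_mul, mul_comm]

end Pool.Agent.H456.Conf
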