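import Pool.Agent.H456.Conf.Rat

/-!
# Far from all represented matroids confined to a subfield
-/

open Finset Module

open scoped Classical

namespace Pool.Agent.H456.Conf

variable {F : Type} [Field F] {r : ℕ} {θ : F} {A : Fin r → Fin r → Bool}

theorem ratS_codim {K : Subfield F} [FiniteDimensional K F] {N : Submodule F (Fin (r + r) → F)}
    {t : ℕ} (h : finrank F (UU θ A) ≤ finrank F (N ⊓ UU θ A : Submodule F (Fin (r + r) → F)) + t) :
    r ≤ finrank K (ratS K θ A N) + finrank K F * t := by
  -- the quotient map
  let π : (Fin (r + r) → F) →ₗ[F] ((Fin (r + r) → F) ⧸ N) := N.mkQ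
  let f : (Fin r → K) →ₗ[K] ((Fin (r + r) → F) ⧸ N) :=
    { toFun := fun x => π (vec θ A (fun i => (x i : F)))
      map_add' := by
        intro x y
        rw [← map_add]
        congr 1
        funext e
        refine Fin.addCases (fun i => ?_) (fun j => ?_) e
        · simp [vec]
        · simp only [vec, Fin.append_right, Pi.add_apply]
          rw [← mul_add, ← sum_add_distrib]
          congr 1
          exact sum_congr rfl fun i _ => by push_cast; ring
      map_smul' := by
        intro c x
        have h1 : vec θ A (fun i => ((c • x) i : F)) = (c : F) • vec θ A (fun i => (x i : F)) := by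
          funext e
          refine Fin.addCases (fun i => ?_) (fun j => ?_) e
          · simp [vec]
          · simp only [vec, Fin.append_right, Pi.smul_apply, smul_eq_mul]
            rw [mul_left_comm]
            congr 1
            rw [mul_sum]
            refine sum_congr rfl fun i _ => ?_
            push_cast
            ring
        rw [h1, map_smul]
        rfl }
  have hker : LinearMap.ker f = ratS K θ A N := by
    ext x
    rw [LinearMap.mem_ker, mem_ratS]
    change N.mkQ _ = 0 ↔ _
    rw [Submodule.mkQ_apply, Submodule.Quotient.mk_eq_zero]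
  have h1 := LinearMap.finrank_range_add_finrank_ker f
  rw [hker, finrank_fintype_fun_eq_card, Fintype.card_fin] at h1
  have h2 : finrank K (LinearMap.range f) ≤ finrank K ((UU θ A).map π) := by
    let g : LinearMap.range f →ₗ[K] (UU θ A).map π :=
      { toFun := fun y => ⟨y.1, by
          obtain ⟨x, hx⟩ := y.2
          rw [← hx]
          exact ⟨_, vec_mem θ A _, rfl⟩⟩
        map_add' := fun _ _ => rfl
        map_smul' := fun _ _ => rfl }
    have hfin : Module.Finite K ((UU θ A).map π) := Module.Finite.trans F _
    apply LinearMap.finrank_le_finrank_of_injective (f := g)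
    intro a b hab
    apply Subtype.ext
    exact congrArg (fun z : (UU θ A).map π => z.1) hab
  have h3 : finrank K F * finrank F ((UU θ A).map π) = finrank K ((UU θ A).map π) :=
    finrank_mul_finrank K F _
  have h4 : finrank F ((UU θ A).map π) + finrank F (N ⊓ UU θ A : Submodule F (Fin (r + r) → F)) =
      finrank F (UU θ A) := by
    have h5 := LinearMap.finrank_range_add_finrank_ker (π.domRestrict (UU θ A))
    have h6 : LinearMap.range (π.domRestrict (UU θ A)) = (UU θ A).map π := by
      rw [LinearMap.domRestrict, LinearMap.range_comp, Submodule.range_subtype]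
    have h7 : (LinearMap.ker (π.domRestrict (UU θ A))).map (UU θ A).subtype = N ⊓ UU θ A := by
      ext x
      constructor
      · rintro ⟨y, hy, rfl⟩
        have h8 : π y.1 = 0 := hy
        exact ⟨(Submodule.Quotient.mk_eq_zero N).1 h8, y.2⟩
      · rintro ⟨hx, hx'⟩
        exact ⟨⟨x, hx'⟩, (Submodule.Quotient.mk_eq_zero N).2 hx, rfl⟩
    have h9 : finrank F (N ⊓ UU θ A : Submodule F (Fin (r + r) → F)) =
        finrank F (LinearMap.ker (π.domRestrict (UU θ A))) := by
      rw [← h7]
      exact (Submodule.equivMapOfInjective _ (UU θ A).injective_subtype _).finrank_eq.symm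
    rw [h6] at h5
    rw [h9]
    exact h5
  have h10 : finrank F ((UU θ A).map π) ≤ t := by omega
  have h11 := Nat.mul_le_mul_left (finrank K F) h10
  omega

/-- Append zeros on the right. -/
def inL (K : Type) [Field K] (r : ℕ) : (Fin r → K) →ₗ[K] (Fin (r + r) → K) where
  toFun x := Fin.append x (fun _ => 0)
  map_add' := by
    intro x y
    funext e
    refine Fin.addCases (fun i => ?_) (fun j => ?_) e
    · simp only [Pi.add_apply, Fin.append_left]
    · simp only [Pi.add_apply, Fin.append_right, add_zero]
  map_smul' := by
    intro c x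
    funext e
    refine Fin.addCases (fun i => ?_) (fun j => ?_) e
    · simp only [Pi.smul_apply, Fin.append_left, RingHom.id_apply]
    · simp only [Pi.smul_apply, Fin.append_right, smul_zero, RingHom.id_apply]

/-- Append zeros on the left. -/
def inR (K : Type) [Field K] (r : ℕ) : (Fin r → K) →ₗ[K] (Fin (r + r) → K) where
  toFun x := Fin.append (fun _ => 0) x
  map_add' := by
    intro x y
    funext e
    refine Fin.addCases (fun i => ?_) (fun j => ?_) e
    · simp only [Pi.add_apply, Fin.append_left, add_zero]
    · simp only [Pi.add_apply, Fin.append_right]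
  map_smul' := by
    intro c x
    funext e
    refine Fin.addCases (fun i => ?_) (fun j => ?_) e
    · simp only [Pi.smul_apply, Fin.append_left, smul_zero, RingHom.id_apply]
    · simp only [Pi.smul_apply, Fin.append_right, RingHom.id_apply]

theorem inL_inj (K : Type) [Field K] (r : ℕ) : Function.Injective (inL K r) := by
  intro x y hxy
  funext i
  have h1 := congrFun hxy (Fin.castAdd r i)
  change Fin.append x (fun _ => 0) _ = Fin.append y (fun _ => 0) _ at h1
  rwa [Fin.append_left, Fin.append_left] at h1

theorem inR_inj (K : Type) [Field K] (r : ℕ) : Function.Injective (inR K r) := by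
  intro x y hxy
  funext i
  have h1 := congrFun hxy (Fin.natAdd r i)
  change Fin.append (fun _ => 0) x _ = Fin.append (fun _ => 0) y _ at h1
  rwa [Fin.append_right, Fin.append_right] at h1

theorem coe_inL {K : Subfield F} (x : Fin r → K) : (fun i => ((inL K r x i : K) : F)) =
    Fin.append (fun i => (x i : F)) (fun _ => 0) := by
  funext e
  change ((Fin.append x (fun _ => 0) e : K) : F) = _
  refine Fin.addCases (fun i => ?_) (fun j => ?_) e
  · rw [Fin.append_left, Fin.append_left]
  · rw [Fin.append_right, Fin.append_right, ZeroMemClass.coe_zero]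

theorem coe_inR {K : Subfield F} (x : Fin r → K) : (fun i => ((inR K r x i : K) : F)) =
    Fin.append (fun _ => 0) (fun i => (x i : F)) := by
  funext e
  change ((Fin.append (fun _ => 0) x e : K) : F) = _
  refine Fin.addCases (fun i => ?_) (fun j => ?_) e
  · rw [Fin.append_left, Fin.append_left, ZeroMemClass.coe_zero]
  · rw [Fin.append_right, Fin.append_right]

theorem rank_le_of_stab {K : Subfield F} [FiniteDimensional K F]
    {N : Submodule F (Fin (r + r) → F)} (hN : Stab K N) (hθ : θ ∉ K) {t : ℕ}
    (h1 : finrank F N ≤ finrank F (N ⊓ UU θ A : Submodule F (Fin (r + r) → F)) + t)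
    (h2 : finrank F (UU θ A) ≤ finrank F (N ⊓ UU θ A : Submodule F (Fin (r + r) → F)) + t) :
    rk (UU θ A) (rgt r) ≤ (2 * finrank K F + 1) * t := by
  have e1 := ratS_codim (K := K) h2
  set S := ratS K θ A N with hS
  -- left part
  have e2 : finrank K S ≤ finrank F (van N (rgt r)) := by
    apply rat_le _ ((inL K r).domRestrict S)
    · exact (inL_inj K r).comp Subtype.val_injective
    · intro x
      have h3 := (rat_parts hN hθ x.2).1
      change (fun i => ((inL K r x.1 i : K) : F)) ∈ _
      rw [coe_inL]
      refine ⟨h3, fun c hc => ?_⟩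
      obtain ⟨j, rfl⟩ := mem_rgt.1 hc
      rw [Fin.append_right]
  -- right part
  have e3 : finrank K (S.map (mulA K A)) ≤ finrank F (van N (lft r)) := by
    apply rat_le _ ((inR K r).domRestrict (S.map (mulA K A)))
    · exact (inR_inj K r).comp Subtype.val_injective
    · rintro ⟨_, x, hx, rfl⟩
      have h3 := (rat_parts hN hθ hx).2
      change (fun i => ((inR K r (mulA K A x) i : K) : F)) ∈ _
      rw [coe_inR]
      refine ⟨h3, fun c hc => ?_⟩
      obtain ⟨j, rfl⟩ := mem_lft.1 hc
      rw [Fin.append_left]
  -- kernel part
  have e4 : finrank K (LinearMap.ker ((mulA K A).domRestrict S)) ≤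
      finrank F (van (UU θ A) (rgt r)) := by
    refine rat_le (K := K) (W := ↥(LinearMap.ker ((mulA K A).domRestrict S))) _
      (((inL K r).domRestrict S).domRestrict (LinearMap.ker ((mulA K A).domRestrict S))) ?_ ?_
    · exact ((inL_inj K r).comp Subtype.val_injective).comp Subtype.val_injective
    · rintro ⟨x, hx⟩
      have hx' : mulA K A x.1 = 0 := hx
      change (fun i => ((inL K r x.1 i : K) : F)) ∈ _
      have h4 : (fun i => ((inL K r x.1 i : K) : F)) = vec θ A (fun i => (x.1 i : F)) := by
        rw [coe_inL]
        unfold vec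
        congr 1
        funext j
        rw [← coe_mulA, hx']
        simp
      rw [h4]
      refine ⟨vec_mem _ _ _, fun c hc => ?_⟩
      obtain ⟨j, rfl⟩ := mem_rgt.1 hc
      rw [vec, Fin.append_right, ← coe_mulA, hx']
      simp
  have e5 : finrank K (S.map (mulA K A)) + finrank K (LinearMap.ker ((mulA K A).domRestrict S)) =
      finrank K S := by
    have h5 := LinearMap.finrank_range_add_finrank_ker ((mulA K A).domRestrict S)
    rwa [LinearMap.domRestrict, LinearMap.range_comp, Submodule.range_subtype] at h5
  have e6 := rk_add_van (UU θ A) (rgt r)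
  rw [finrank_UU] at e6
  have e7 : finrank F (van N (rgt r)) + finrank F (van N (lft r)) ≤ finrank F N := by
    have h6 := Submodule.finrank_sup_add_finrank_inf_eq (van N (rgt r)) (van N (lft r))
    have h7 : van N (rgt r) ⊓ van N (lft r) = ⊥ := by
      rw [eq_bot_iff]
      rintro u ⟨⟨_, hu⟩, ⟨_, hu'⟩⟩
      change u = 0
      funext e
      refine Fin.addCases (fun i => ?_) (fun j => ?_) e
      · exact hu' _ (mem_lft.2 ⟨i, rfl⟩)
      · exact hu _ (mem_rgt.2 ⟨j, rfl⟩)
    rw [h7, finrank_bot, add_zero] at h6
    rw [← h6]
    exact Submodule.finrank_mono (sup_le (fun u hu => hu.1) (fun u hu => hu.1))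
  have e8 : finrank F (N ⊓ UU θ A : Submodule F (Fin (r + r) → F)) ≤ r := by
    have := Submodule.finrank_mono (R := F) (inf_le_right : N ⊓ UU θ A ≤ UU θ A)
    rwa [finrank_UU] at this
  have e9 : (2 * finrank K F + 1) * t = 2 * (finrank K F * t) + t := by ring
  rw [e9]
  omega

theorem le_rk_rgt {k : ℕ} (hk : KConn k (UU θ A)) (hkr : k ≤ r) (hk0 : 0 < k) :
    k - 1 ≤ rk (UU θ A) (rgt r) := by
  have h1 : (rgt r)ᶜ = lft r := by
    ext e
    rw [mem_compl, mem_rgt, mem_lft]
    refine Fin.addCases (fun i => ?_) (fun j => ?_) e
    · constructor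
      · intro _
        exact ⟨i, rfl⟩
      · rintro _ ⟨j, hj⟩
        have := congrArg Fin.val hj
        simp at this
        omega
    · constructor
      · intro h
        exact absurd ⟨j, rfl⟩ h
      · rintro ⟨i, hi⟩
        have := congrArg Fin.val hi
        simp at this
        omega
  have h2 : #(rgt r) = r := by
    rw [rgt, card_map, card_univ, Fintype.card_fin]
  have h3 : #(lft r) = r := by
    rw [lft, card_map, card_univ, Fintype.card_fin]
  have h4 := hk (k - 1) (by omega) (rgt r) (by omega) (by rw [h1]; omega)
  rw [h1, rk_univ] at h4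
  have h5 := rk_le (UU θ A) (lft r)
  omega

end Pool.Agent.H456.Conf
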