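import Pool.Agent.H456.Conf.FarK

/-!
# Scaling is needed in the third alternative
-/

open Finset Module

open scoped Classical

namespace Pool.Agent.H456.Conf

variable {F : Type} [Field F]

theorem exists_gen [Finite F] : ∃ θ : F, θ ≠ 0 ∧ ∀ K : Subfield F, K ≠ ⊤ → θ ∉ K := by
  obtain ⟨g, hg⟩ := IsCyclic.exists_generator (α := Fˣ)
  refine ⟨g, g.ne_zero, fun K hK hgK => hK ?_⟩
  rw [eq_top_iff]
  intro x _
  by_cases hx : x = 0
  · rw [hx]
    exact K.zero_mem
  · obtain ⟨n, hn⟩ := Subgroup.mem_zpowers_iff.1 (hg (Units.mk0 x hx))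
    have h1 : x = (g : F) ^ n := by
      have := congrArg Units.val hn
      rw [Units.val_zpow_eq_zpow_val] at this
      exact this.symm
    rw [h1]
    exact K.zpow_mem hgK n

theorem bot_ne_top [Finite F] (h : ¬ (Nat.card F).Prime) : (⊥ : Subfield F) ≠ ⊤ := by
  intro htop
  apply h
  obtain ⟨p, hp⟩ := CharP.exists F
  have hp' : p.Prime := CharP.char_is_prime F p
  have : Fact p.Prime := ⟨hp'⟩
  have h1 := Subfield.card_bot F p
  rw [htop] at h1
  have h2 : Nat.card (⊤ : Subfield F) = Nat.card F :=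
    Nat.card_congr (Equiv.Set.univ F)
  rw [← h2, h1]
  exact hp'

theorem not_q1 [Finite F] : ¬ Q1For (PP F) := by
  rintro ⟨k, t, hkt⟩
  have : Fintype F := Fintype.ofFinite F
  obtain ⟨θ, hθ0, hθ⟩ := exists_gen (F := F)
  set q := Fintype.card F with hq
  set k' := k + (2 * q + 1) * t + 2 + 8 * (t + 1) with hk'
  obtain ⟨m, r, A, hm, hr, hr0, h1, h2, h3⟩ := exists_good (F := F) k' (4 * t + 4 + k')
  have hconn : KConn k' (UU θ A) := kconn_UU hr0 hθ0 h1 h2 h3
  have hconn' : KConn k (UU θ A) := fun l hl X hX hX' => hconn l (by omega) X hX hX'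
  obtain ⟨N, hN, hcase⟩ := hkt (r + r) (UU θ A) (PP_UU hθ0 A) hconn'
  obtain ⟨e1, e2⟩ := perturb_inter hN
  rcases hcase with hF | hF | ⟨K, hK, hconf⟩
  · obtain ⟨u, hu, hu0, hle⟩ := frame_small hF e1 e2 (by rw [finrank_UU]; ring)
      (by rw [finrank_UU]; omega)
    have := cogirth hr0 hθ0 h1 hu hu0
    omega
  · obtain ⟨e3, e4⟩ := dual_inter e1 e2
    have e5 : finrank F (dual (UU θ A)) = r := by
      have := finrank_dual (UU θ A)
      rw [finrank_UU] at this
      omega
    obtain ⟨u, hu, hu0, hle⟩ := frame_small hF e3 e4 (by rw [e5]; ring) (by rw [e5]; omega)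
    have := girth hr0 hθ0 h2 hu hu0
    omega
  · have e3 := rank_le_of_stab (stab_of_confined hconf) (hθ K hK) e1 e2
    have e4 := le_rk_rgt hconn (by omega) (by omega)
    have e5 : finrank K F ≤ q := by
      have e6 := Module.card_eq_pow_finrank (K := K) (V := F)
      have e7 : 1 < Fintype.card K := Fintype.one_lt_card
      have e8 := Nat.lt_pow_self (n := finrank K F) e7
      rw [← e6] at e8
      exact e8.le
    have e6 := Nat.mul_le_mul_right t e5
    have e7 : (2 * finrank K F + 1) * t = 2 * (finrank K F * t) + t := by ring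
    have e8 : (2 * q + 1) * t = 2 * (q * t) + t := by ring
    omega

end Pool.Agent.H456.Conf
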