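import Pool.Agent.H456.Conf.Conn

/-!
# Tutte connectivity of the represented matroids of good matrices
-/

open Finset Module

open scoped Classical

namespace Pool.Agent.H456.Conf

variable {F : Type} [Field F]

theorem rk_add_van {n : ℕ} (U : Submodule F (Fin n → F)) (X : Finset (Fin n)) :
    rk U X + finrank F (van U X) = finrank F U := by
  have h1 := LinearMap.finrank_range_add_finrank_ker ((restr (F := F) X).domRestrict U)
  have h2 : LinearMap.range ((restr (F := F) X).domRestrict U) = U.map (restr X) := by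
    rw [LinearMap.domRestrict, LinearMap.range_comp, Submodule.range_subtype]
  have h3 : (LinearMap.ker ((restr (F := F) X).domRestrict U)).map U.subtype = van U X := by
    ext x
    constructor
    · rintro ⟨y, hy, rfl⟩
      exact ⟨y.2, fun c hc => congrFun hy ⟨c, hc⟩⟩
    · rintro ⟨hx, hx0⟩
      exact ⟨⟨x, hx⟩, funext fun c => hx0 c c.2, rfl⟩
  have h4 : finrank F (van U X) = finrank F (LinearMap.ker ((restr (F := F) X).domRestrict U)) := by
    rw [← h3]
    exact (Submodule.equivMapOfInjective _ U.injective_subtype _).finrank_eq.symm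
  rw [h2] at h1
  rw [rk, h4]
  exact h1

theorem rk_eq_finrank {n : ℕ} {U : Submodule F (Fin n → F)} {X : Finset (Fin n)}
    (h : ∀ u ∈ U, (∀ i ∈ X, u i = 0) → u = 0) : rk U X = finrank F U := by
  have h1 := rk_add_van U X
  have h2 : van U X = ⊥ := by
    rw [eq_bot_iff]
    intro u hu
    exact h u hu.1 hu.2
  rw [h2, finrank_bot] at h1
  omega

theorem rk_eq_card {n : ℕ} {U : Submodule F (Fin n → F)} {X : Finset (Fin n)}
    (h : ∀ v ∈ dual U, (∀ i, i ∉ X → v i = 0) → v = 0) : rk U X = #X := by
  by_contra hne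
  have hlt : U.map (restr X) < ⊤ := by
    rw [lt_top_iff_ne_top]
    intro htop
    apply hne
    rw [rk, htop, finrank_top, finrank_fintype_fun_eq_card, Fintype.card_coe]
  obtain ⟨φ, hφ, hle⟩ := Submodule.exists_le_ker_of_lt_top _ hlt
  let v : Fin n → F := fun i => if hi : i ∈ X then φ (Pi.single ⟨i, hi⟩ 1) else 0
  have hsum : ∀ u : Fin n → F, ∑ i, v i * u i = φ (restr X u) := by
    intro u
    have h1 : restr X u = ∑ i : X, u i • (Pi.single i 1 : X → F) := by
      funext i
      rw [Finset.sum_apply, sum_eq_single i]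
      · simp [restr]
      · intro j _ hj
        rw [Pi.smul_apply, Pi.single_eq_of_ne (Ne.symm hj), smul_zero]
      · intro h'
        exact absurd (mem_univ _) h'
    rw [h1, map_sum]
    have h2 : ∑ i, v i * u i = ∑ i ∈ X, v i * u i := by
      symm
      apply sum_subset (subset_univ _)
      intro i _ hi
      simp [v, hi]
    rw [h2, ← sum_coe_sort X]
    apply sum_congr rfl
    intro i _
    rw [map_smul, smul_eq_mul, mul_comm]
    simp [v]
  have hv : v = 0 := by
    apply h v
    · intro u hu
      rw [hsum]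
      exact hle ⟨u, hu, rfl⟩
    · intro i hi
      simp [v, hi]
  apply hφ
  apply LinearMap.ext
  intro x
  let u : Fin n → F := fun i => if hi : i ∈ X then x ⟨i, hi⟩ else 0
  have h1 := hsum u
  have h2 : restr X u = x := by
    funext i
    simp [restr, u]
  rw [h2, hv] at h1
  rw [← h1]
  simp

variable {r : ℕ} {θ : F} {A : Fin r → Fin r → Bool}

/-- The first halves of the vectors of the row space that vanish on `X`. -/
theorem finrank_left (X : Finset (Fin (r + r))) :
    finrank F ((van (UU θ A) X).map (LinearMap.funLeft F F (Fin.castAdd r))) =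
      finrank F (van (UU θ A) X) := by
  have hfi : Function.Injective
      ((LinearMap.funLeft F F (Fin.castAdd r)).domRestrict (van (UU θ A) X)) := by
    rw [injective_iff_map_eq_zero]
    intro u hu
    exact Subtype.ext (eq_zero_of_left u.2.1 fun i => congrFun hu i)
  have h1 := LinearMap.finrank_range_of_inj hfi
  rw [LinearMap.domRestrict, LinearMap.range_comp, Submodule.range_subtype] at h1
  exact h1

theorem conn_aux {k m : ℕ} (hr : 0 < r) (hθ : θ ≠ 0) (h1 : ¬ badRow F (2 * m) A)
    (h2 : ¬ badRow F (2 * m) fun i j => A j i) (h3 : ¬ badBlk F k m A) {l : ℕ} (hl : l < k)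
    (X : Finset (Fin (r + r))) (hX : l ≤ #X) (hXr : #X ≤ r)
    (hlt : rk (UU θ A) X + rk (UU θ A) Xᶜ < rk (UU θ A) univ + l) : False := by
  rw [rk_univ, finrank_UU] at hlt
  rcases Nat.lt_or_ge (2 * m) #X with hbig | hsmall
  · -- large sets
    have e1 := rk_add_van (UU θ A) X
    have e2 := rk_add_van (UU θ A) Xᶜ
    rw [finrank_UU] at e1 e2
    set P := univ.filter fun i => Fin.castAdd r i ∈ X with hP
    set Q := univ.filter fun j => Fin.natAdd r j ∈ X with hQ
    have hPQ : #P + #Q = #X := card_split X
    set V₁ := (van (UU θ A) Xᶜ).map (LinearMap.funLeft F F (Fin.castAdd r)) with hV₁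
    set V₂ := (van (UU θ A) X).map (LinearMap.funLeft F F (Fin.castAdd r)) with hV₂
    obtain ⟨B₁, w₁, hB₁⟩ := exists_base V₁
    obtain ⟨B₂, w₂, hB₂⟩ := exists_base V₂
    have hd1 : #B₁ = finrank F (van (UU θ A) Xᶜ) := by
      rw [← hB₁.finrank_eq, hV₁, finrank_left]
    have hd2 : #B₂ = finrank F (van (UU θ A) X) := by
      rw [← hB₂.finrank_eq, hV₂, finrank_left]
    -- the vectors of `V₁` live on `P`
    have hV₁P : ∀ x ∈ V₁, (∀ i, i ∉ P → x i = 0) ∧
        ∀ j, j ∉ Q → ∑ i, x i * ev (A i j) = 0 := by
      rintro _ ⟨u, hu, rfl⟩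
      constructor
      · intro i hi
        apply hu.2
        rw [mem_compl]
        exact fun h => hi (mem_filter.2 ⟨mem_univ _, h⟩)
      · intro j hj
        have h4 : u (Fin.natAdd r j) = 0 := by
          apply hu.2
          rw [mem_compl]
          exact fun h => hj (mem_filter.2 ⟨mem_univ _, h⟩)
        rw [hu.1 j] at h4
        exact (mul_eq_zero.1 h4).resolve_left hθ
    have hV₂P : ∀ x ∈ V₂, (∀ i ∈ P, x i = 0) ∧
        ∀ j ∈ Q, ∑ i, x i * ev (A i j) = 0 := by
      rintro _ ⟨u, hu, rfl⟩
      constructor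
      · intro i hi
        exact hu.2 _ (mem_filter.1 hi).2
      · intro j hj
        have h4 : u (Fin.natAdd r j) = 0 := hu.2 _ (mem_filter.1 hj).2
        rw [hu.1 j] at h4
        exact (mul_eq_zero.1 h4).resolve_left hθ
    have hB₁P : ∀ b ∈ B₁, b ∈ P := by
      intro b hb
      by_contra h
      have := (hV₁P _ (hB₁.mem b hb)).1 b h
      rw [hB₁.one b hb] at this
      exact one_ne_zero this
    have hB₂P : ∀ b ∈ B₂, b ∉ P := by
      intro b hb h
      have := (hV₂P _ (hB₂.mem b hb)).1 b h
      rw [hB₂.one b hb] at this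
      exact one_ne_zero this
    have hdisj : Disjoint B₁ B₂ := by
      rw [disjoint_left]
      intro b hb hb'
      exact hB₂P b hb' (hB₁P b hb)
    set S := (B₁ ∪ B₂)ᶜ with hS
    have hScard : #S ≤ k := by
      rw [hS, card_compl, Fintype.card_fin, card_union_of_disjoint hdisj]
      omega
    obtain ⟨β, hβS, hβ⟩ := exists_enum (F := F) S hScard hr
    -- the coefficients
    have hw₁ : ∀ b, ∃ c : Fin k → F, b ∈ B₁ → ∀ f : Fin r → F,
        ∑ t, c t * f (β t) = - ∑ i ∈ S, w₁ b i * f i := by
      intro b
      obtain ⟨c, hc⟩ := hβ (fun i => if i ∈ S then - w₁ b i else 0) (fun i hi => if_neg hi)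
      refine ⟨c, fun _ f => ?_⟩
      rw [hc, ← sum_neg_distrib]
      simp only [ite_mul, zero_mul, neg_mul]
      rw [← sum_filter]
      congr 1
      ext i
      simp
    have hw₂ : ∀ b, ∃ c : Fin k → F, b ∈ B₂ → ∀ f : Fin r → F,
        ∑ t, c t * f (β t) = - ∑ i ∈ S, w₂ b i * f i := by
      intro b
      obtain ⟨c, hc⟩ := hβ (fun i => if i ∈ S then - w₂ b i else 0) (fun i hi => if_neg hi)
      refine ⟨c, fun _ f => ?_⟩
      rw [hc, ← sum_neg_distrib]
      simp only [ite_mul, zero_mul, neg_mul]
      rw [← sum_filter]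
      congr 1
      ext i
      simp
    choose c₁ hc₁ using hw₁
    choose c₂ hc₂ using hw₂
    apply h3
    refine ⟨P, Q, β, fun b => if b ∈ P then c₁ b else c₂ b, by omega, by omega, ?_⟩
    intro b hb j hj
    have hbS : b ∉ S := fun h => by
      obtain ⟨t, _, ht⟩ := mem_image.1 (hβS h)
      exact hb t ht
    have hbB : b ∈ B₁ ∪ B₂ := by
      by_contra h
      exact hbS (mem_compl.2 h)
    rcases mem_union.1 hbB with hb1 | hb2
    · have hbP := hB₁P b hb1
      have hjQ : j ∉ Q := by
        rcases hj with h | h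
        · exact h.2
        · exact absurd hbP h.1
      simp only [hbP, if_true]
      rw [hc₁ b hb1 (fun i => ev (A i j))]
      have h4 := (hV₁P _ (hB₁.mem b hb1)).2 j hjQ
      have h5 : ∑ i, w₁ b i * ev (A i j) = ev (A b j) + ∑ i ∈ S, w₁ b i * ev (A i j) := by
        rw [← sum_add_sum_compl S, add_comm]
        congr 1
        rw [sum_eq_single b]
        · rw [hB₁.one b hb1, one_mul]
        · intro i hi hib
          rw [hS, compl_compl] at hi
          rcases mem_union.1 hi with hi1 | hi2
          · rw [hB₁.zero b hb1 i hi1 hib, zero_mul]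
          · rw [(hV₁P _ (hB₁.mem b hb1)).1 i (hB₂P i hi2), zero_mul]
        · intro h'
          exact absurd (mem_compl.2 hbS) h'
      rw [h5] at h4
      exact eq_neg_of_add_eq_zero_left h4
    · have hbP := hB₂P b hb2
      have hjQ : j ∈ Q := by
        rcases hj with h | h
        · exact absurd h.1 hbP
        · exact h.2
      simp only [hbP, if_false]
      rw [hc₂ b hb2 (fun i => ev (A i j))]
      have h4 := (hV₂P _ (hB₂.mem b hb2)).2 j hjQ
      have h5 : ∑ i, w₂ b i * ev (A i j) = ev (A b j) + ∑ i ∈ S, w₂ b i * ev (A i j) := by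
        rw [← sum_add_sum_compl S, add_comm]
        congr 1
        rw [sum_eq_single b]
        · rw [hB₂.one b hb2, one_mul]
        · intro i hi hib
          rw [hS, compl_compl] at hi
          rcases mem_union.1 hi with hi1 | hi2
          · rw [(hV₂P _ (hB₂.mem b hb2)).1 i (hB₁P i hi1), zero_mul]
          · rw [hB₂.zero b hb2 i hi2 hib, zero_mul]
        · intro h'
          exact absurd (mem_compl.2 hbS) h'
      rw [h5] at h4
      exact eq_neg_of_add_eq_zero_left h4
  · -- small sets
    have e1 : rk (UU θ A) X = #X := by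
      apply rk_eq_card
      intro v hv hvX
      by_contra hv0
      have h4 := girth hr hθ h2 hv hv0
      have h5 : spt v ⊆ X := by
        intro i hi
        by_contra h
        exact (mem_spt.1 hi) (hvX i h)
      have := card_le_card h5
      omega
    have e2 : rk (UU θ A) Xᶜ = r := by
      rw [rk_eq_finrank, finrank_UU]
      intro u hu huX
      by_contra hu0
      have h4 := cogirth hr hθ h1 hu hu0
      have h5 : spt u ⊆ X := by
        intro i hi
        by_contra h
        exact (mem_spt.1 hi) (huX i (mem_compl.2 h))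
      have := card_le_card h5
      omega
    omega

theorem kconn_UU {k m : ℕ} (hr : 0 < r) (hθ : θ ≠ 0) (h1 : ¬ badRow F (2 * m) A)
    (h2 : ¬ badRow F (2 * m) fun i j => A j i) (h3 : ¬ badBlk F k m A) :
    KConn k (UU θ A) := by
  intro l hl X hX hXc
  by_contra hlt
  push Not at hlt
  have hcard : #X + #Xᶜ = r + r := by
    rw [card_add_card_compl, Fintype.card_fin]
  rcases Nat.lt_or_ge r #X with h | h
  · apply conn_aux hr hθ h1 h2 h3 hl Xᶜ hXc (by omega)
    rw [compl_compl]
    omega
  · exact conn_aux hr hθ h1 h2 h3 hl X hX h hlt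

end Pool.Agent.H456.Conf
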