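import Pool.Agent.H456.Conf.Sub

/-!
# Rational vectors
-/

open Finset Module

open scoped Classical

namespace Pool.Agent.H456.Conf

variable {F : Type} [Field F]

/-- Rational vectors in a subspace. -/
theorem rat_le {K : Subfield F} {n : ℕ} (Q : Submodule F (Fin n → F)) {W : Type}
    [AddCommGroup W] [Module K W] (f : W →ₗ[K] (Fin n → K)) (hinj : Function.Injective f)
    (hf : ∀ w, (fun i => ((f w i : K) : F)) ∈ Q) : finrank K W ≤ finrank F Q := by
  obtain ⟨B, w, hB⟩ := exists_base Q
  rw [hB.finrank_eq]
  let g : W →ₗ[K] (B → K) := (LinearMap.funLeft K K (fun b : B => (b : Fin n))) ∘ₗ f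
  have hg : Function.Injective g := by
    rw [injective_iff_map_eq_zero]
    intro x hx
    have h1 := hB.ext _ (hf x) (fun b hb => by
      have := congrFun hx ⟨b, hb⟩
      change f x b = 0 at this
      rw [this]
      rfl)
    apply hinj
    rw [map_zero]
    funext i
    exact Subtype.ext (congrFun h1 i)
  have h2 := LinearMap.finrank_le_finrank_of_injective hg
  rw [finrank_fintype_fun_eq_card, Fintype.card_coe] at h2
  exact h2

variable {r : ℕ} {θ : F} {A : Fin r → Fin r → Bool}

/-- The row vector times the matrix. -/
def mulA (K : Type) [Field K] (A : Fin r → Fin r → Bool) : (Fin r → K) →ₗ[K] (Fin r → K) where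
  toFun x := fun j => ∑ i, x i * ev (A i j)
  map_add' := by
    intro x y
    funext j
    simp only [Pi.add_apply, add_mul, sum_add_distrib]
  map_smul' := by
    intro c x
    funext j
    simp only [Pi.smul_apply, smul_eq_mul, RingHom.id_apply, mul_assoc, mul_sum]

theorem coe_ev (K : Subfield F) (b : Bool) : ((ev b : K) : F) = ev b := by
  unfold ev
  split_ifs <;> rfl

theorem coe_mulA (K : Subfield F) (x : Fin r → K) (j : Fin r) :
    ((mulA K A x j : K) : F) = ∑ i, (x i : F) * ev (A i j) := by
  change ((∑ i, x i * ev (A i j) : K) : F) = _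
  rw [AddSubmonoidClass.coe_finsetSum]
  apply sum_congr rfl
  intro i _
  rw [← coe_ev K]
  rfl

/-- The rational vectors whose row vector lies in `N`. -/
def ratS (K : Subfield F) (θ : F) (A : Fin r → Fin r → Bool)
    (N : Submodule F (Fin (r + r) → F)) : Submodule K (Fin r → K) where
  carrier := {x | vec θ A (fun i => (x i : F)) ∈ N}
  add_mem' := by
    intro x y hx hy
    have h1 : vec θ A (fun i => ((x + y) i : F)) =
        vec θ A (fun i => (x i : F)) + vec θ A (fun i => (y i : F)) := by
      funext e
      refine Fin.addCases (fun i => ?_) (fun j => ?_) e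
      · simp [vec]
      · simp only [vec, Fin.append_right, Pi.add_apply]
        rw [← mul_add, ← sum_add_distrib]
        congr 1
        exact sum_congr rfl fun i _ => by push_cast; ring
    change vec θ A (fun i => ((x + y) i : F)) ∈ N
    rw [h1]
    exact N.add_mem hx hy
  zero_mem' := by
    have h1 : vec θ A (fun i => (((0 : Fin r → K) i : K) : F)) = 0 := by
      funext e
      refine Fin.addCases (fun i => ?_) (fun j => ?_) e
      · simp [vec]
      · simp only [vec, Fin.append_right, Pi.zero_apply, ZeroMemClass.coe_zero, zero_mul,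
          sum_const_zero, mul_zero]
    change vec θ A (fun i => (((0 : Fin r → K) i : K) : F)) ∈ N
    rw [h1]
    exact N.zero_mem
  smul_mem' := by
    intro c x hx
    have h1 : vec θ A (fun i => ((c • x) i : F)) = (c : F) • vec θ A (fun i => (x i : F)) := by
      funext e
      refine Fin.addCases (fun i => ?_) (fun j => ?_) e
      · simp [vec]
      · simp only [vec, Fin.append_right, Pi.smul_apply, smul_eq_mul]
        rw [mul_left_comm]
        congr 1
        rw [mul_sum]
        refine sum_congr rfl fun i _ => ?_
        push_cast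
        ring
    change vec θ A (fun i => ((c • x) i : F)) ∈ N
    rw [h1]
    exact N.smul_mem _ hx

theorem mem_ratS {K : Subfield F} {N : Submodule F (Fin (r + r) → F)} {x : Fin r → K} :
    x ∈ ratS K θ A N ↔ vec θ A (fun i => (x i : F)) ∈ N := Iff.rfl

/-- The set of elements of the first half. -/
def lft (r : ℕ) : Finset (Fin (r + r)) := univ.map (Fin.castAddEmb r)

/-- The set of elements of the second half. -/
def rgt (r : ℕ) : Finset (Fin (r + r)) := univ.map (Fin.natAddEmb r)

theorem mem_lft {e : Fin (r + r)} : e ∈ lft r ↔ ∃ i, Fin.castAdd r i = e := by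
  simp [lft]

theorem mem_rgt {e : Fin (r + r)} : e ∈ rgt r ↔ ∃ i, Fin.natAdd r i = e := by
  simp [rgt]

theorem rat_parts {K : Subfield F} {N : Submodule F (Fin (r + r) → F)} (hN : Stab K N)
    (hθ : θ ∉ K) {x : Fin r → K} (hx : x ∈ ratS K θ A N) :
    Fin.append (fun i => (x i : F)) (fun _ => 0) ∈ N ∧
      Fin.append (fun _ => 0) (fun j => ((mulA K A x j : K) : F)) ∈ N := by
  obtain ⟨τ, h1, h2⟩ := exists_tau hθ
  have e1 := hN _ hx τ
  have e2 : (fun i => τ (vec θ A (fun i => (x i : F)) i)) =
      Fin.append (fun _ => 0) (fun j => ((mulA K A x j : K) : F)) := by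
    funext e
    refine Fin.addCases (fun i => ?_) (fun j => ?_) e
    · simp only [vec, Fin.append_left]
      have : ((x i : K) : F) = x i • (1 : F) := by
        rw [Subfield.smul_def, smul_eq_mul, mul_one]
      rw [this, map_smul, h1, smul_zero]
    · simp only [vec, Fin.append_right]
      rw [← coe_mulA]
      have : θ * ((mulA K A x j : K) : F) = mulA K A x j • θ := by
        rw [Subfield.smul_def, smul_eq_mul, mul_comm]
      rw [this, map_smul, h2, Subfield.smul_def, smul_eq_mul, mul_one]
  rw [e2] at e1
  refine ⟨?_, e1⟩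
  have e3 : Fin.append (fun i => (x i : F)) (fun _ => 0) = vec θ A (fun i => (x i : F)) -
      θ • Fin.append (fun _ => 0) (fun j => ((mulA K A x j : K) : F)) := by
    funext e
    refine Fin.addCases (fun i => ?_) (fun j => ?_) e
    · simp [vec]
    · simp only [vec, Fin.append_right, Pi.sub_apply, Pi.smul_apply, smul_eq_mul]
      rw [coe_mulA, sub_self]
  rw [e3]
  exact N.sub_mem hx (N.smul_mem _ e1)

end Pool.Agent.H456.Conf
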