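import Pool.Agent.H456.Conf.Far

/-!
# Matroids that are confined up to column scaling
-/

open Finset Module

open scoped Classical

namespace Pool.Agent.H456.Conf

variable {F : Type} [Field F]

/-- `V` is stable under `K`-linear maps of coordinates. -/
def Stab (K : Subfield F) {n : ℕ} (V : Submodule F (Fin n → F)) : Prop :=
  ∀ v ∈ V, ∀ τ : F →ₗ[K] F, (fun i => τ (v i)) ∈ V

theorem stab_of_confined {K : Subfield F} {n : ℕ} {N : Submodule F (Fin n → F)}
    (h : Confined K N) : Stab K N := by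
  obtain ⟨m, A, hA, rfl⟩ := h
  intro v hv τ
  rw [rowSpace, Submodule.mem_span_range_iff_exists_fun] at hv ⊢
  obtain ⟨c, rfl⟩ := hv
  refine ⟨fun i => τ (c i), ?_⟩
  funext j
  rw [Finset.sum_apply, Finset.sum_apply, map_sum]
  apply sum_congr rfl
  intro i _
  rw [Pi.smul_apply, Pi.smul_apply, smul_eq_mul, smul_eq_mul]
  have h1 : τ (c i * A i j) = (⟨A i j, hA i j⟩ : K) • τ (c i) := by
    rw [← map_smul]
    congr 1
    rw [Subfield.smul_def, smul_eq_mul, mul_comm]
  rw [h1, Subfield.smul_def, smul_eq_mul, mul_comm]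

/-- A linear map that separates `1` from an element outside `K`. -/
theorem exists_tau {K : Subfield F} {a : F} (ha : a ∉ K) :
    ∃ τ : F →ₗ[K] F, τ 1 = 0 ∧ τ a = 1 := by
  have hna : a ∉ Submodule.span K ({1} : Set F) := by
    rw [Submodule.mem_span_singleton]
    rintro ⟨c, hc⟩
    apply ha
    rw [← hc, Subfield.smul_def, smul_eq_mul, mul_one]
    exact c.2
  obtain ⟨f, hf, hf'⟩ := Submodule.exists_dual_map_eq_bot_of_notMem hna inferInstance
  have hf1 : f 1 = 0 := by
    have : f 1 ∈ (Submodule.span K ({1} : Set F)).map f :=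
      ⟨1, Submodule.mem_span_singleton_self 1, rfl⟩
    rw [hf', Submodule.mem_bot] at this
    exact this
  let ι : K →ₗ[K] F := Algebra.linearMap K F
  refine ⟨((f a)⁻¹ : K) • (ι ∘ₗ f), ?_, ?_⟩
  · rw [LinearMap.smul_apply, LinearMap.comp_apply, hf1, map_zero, smul_zero]
  · rw [LinearMap.smul_apply, LinearMap.comp_apply, ← map_smul, smul_eq_mul,
      inv_mul_cancel₀ hf]
    exact map_one (algebraMap K F)

/-- The class of represented matroids that are confined to the prime subfield after scaling of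
columns. -/
def PP (F : Type) [Field F] : MClass F := fun n U => ∃ d : Fin n → F, (∀ i, d i ≠ 0) ∧
  ∀ v : Fin n → F, (fun i => d i * v i) ∈ U →
    ∀ τ : F →ₗ[(⊥ : Subfield F)] F, (fun i => d i * τ (v i)) ∈ U

theorem minorClosed_PP : MinorClosed (PP F) := by
  rintro m n V U ⟨d, hd, hU⟩ ⟨ι, C, hιC, hV⟩
  refine ⟨fun i => d (ι i), fun i => hd _, fun v hv τ => ?_⟩
  rw [hV] at hv ⊢
  obtain ⟨u, hu, huC, huv⟩ := hv
  have h1 : (fun i => d i * ((d i)⁻¹ * u i)) = u := by
    funext i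
    rw [mul_inv_cancel_left₀ (hd i)]
  refine ⟨fun i => d i * τ ((d i)⁻¹ * u i), hU _ (by rw [h1]; exact hu) τ, ?_, ?_⟩
  · intro c hc
    change d c * τ ((d c)⁻¹ * u c) = 0
    rw [huC c hc, mul_zero, map_zero, mul_zero]
  · intro i
    change d (ι i) * τ ((d (ι i))⁻¹ * u (ι i)) = d (ι i) * τ (v i)
    rw [huv i, inv_mul_cancel_left₀ (hd _)]

theorem proper_PP {θ : F} (hθ : θ ∉ (⊥ : Subfield F)) : Proper (PP F) := by
  let U : Submodule F (Fin 4 → F) :=
    { carrier := {u | u 2 = u 0 + u 1 ∧ u 3 = u 0 + θ * u 1}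
      add_mem' := by
        rintro a b ⟨h1, h2⟩ ⟨h3, h4⟩
        refine ⟨?_, ?_⟩
        · simp only [Pi.add_apply, h1, h3]; ring
        · simp only [Pi.add_apply, h2, h4]; ring
      zero_mem' := by simp
      smul_mem' := by
        rintro c a ⟨h1, h2⟩
        refine ⟨?_, ?_⟩
        · simp only [Pi.smul_apply, smul_eq_mul, h1]; ring
        · simp only [Pi.smul_apply, smul_eq_mul, h2]; ring }
  refine ⟨4, U, ?_⟩
  rintro ⟨d, hd, hU⟩
  have hmem : ∀ u : Fin 4 → F, u ∈ U ↔ u 2 = u 0 + u 1 ∧ u 3 = u 0 + θ * u 1 :=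
    fun u => Iff.rfl
  have key : ∀ v : Fin 4 → F, (fun i => d i * v i) ∈ U → (v 0 = 1 ∨ v 0 = 0) →
      (v 1 = 1 ∨ v 1 = 0) → v 2 ∈ (⊥ : Subfield F) ∧ v 3 ∈ (⊥ : Subfield F) := by
    intro v hv h0 h1
    have hτ : ∀ τ : F →ₗ[(⊥ : Subfield F)] F, τ 1 = 0 → τ (v 2) = 0 ∧ τ (v 3) = 0 := by
      intro τ h
      have e0 : τ (v 0) = 0 := by
        rcases h0 with h0 | h0
        · rw [h0, h]
        · rw [h0, map_zero]
      have e1 : τ (v 1) = 0 := by
        rcases h1 with h1 | h1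
        · rw [h1, h]
        · rw [h1, map_zero]
      obtain ⟨e2, e3⟩ := (hmem _).1 (hU v hv τ)
      simp only [e0, e1, mul_zero, add_zero] at e2 e3
      exact ⟨(mul_eq_zero.1 e2).resolve_left (hd 2), (mul_eq_zero.1 e3).resolve_left (hd 3)⟩
    constructor
    · by_contra h
      obtain ⟨τ, ht1, ht2⟩ := exists_tau h
      rw [(hτ τ ht1).1] at ht2
      exact zero_ne_one ht2
    · by_contra h
      obtain ⟨τ, ht1, ht2⟩ := exists_tau h
      rw [(hτ τ ht1).2] at ht2
      exact zero_ne_one ht2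
  have k1 := key ![1, 0, d 0 * (d 2)⁻¹, d 0 * (d 3)⁻¹] (by
    rw [hmem]
    have := hd 2
    have := hd 3
    constructor
    · simp; field_simp
    · simp; field_simp) (by simp) (by simp)
  have k2 := key ![0, 1, d 1 * (d 2)⁻¹, θ * d 1 * (d 3)⁻¹] (by
    rw [hmem]
    have := hd 2
    have := hd 3
    constructor
    · simp; field_simp
    · simp; field_simp) (by simp) (by simp)
  simp only [Matrix.cons_val] at k1 k2
  apply hθ
  have h0 := hd 0
  have h1 := hd 1
  have h2 := hd 2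
  have h3 := hd 3
  have hθ' : θ = (θ * d 1 * (d 3)⁻¹) * (d 0 * (d 2)⁻¹) * ((d 1 * (d 2)⁻¹)⁻¹ *
      (d 0 * (d 3)⁻¹)⁻¹) := by
    field_simp
  rw [hθ']
  exact mul_mem (mul_mem k2.2 k1.1) (mul_mem (inv_mem k2.1) (inv_mem k1.2))

theorem PP_UU {r : ℕ} {θ : F} (hθ : θ ≠ 0) (A : Fin r → Fin r → Bool) : PP F _ (UU θ A) := by
  refine ⟨Fin.append (fun _ => 1) (fun _ => θ), ?_, ?_⟩
  · intro i
    refine Fin.addCases (fun i => ?_) (fun j => ?_) i
    · rw [Fin.append_left]
      exact one_ne_zero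
    · rw [Fin.append_right]
      exact hθ
  · intro v hv τ j
    have h1 := hv j
    simp only [Fin.append_right, Fin.append_left, one_mul] at h1 ⊢
    have h2 := mul_left_cancel₀ hθ h1
    rw [h2, map_sum]
    congr 1
    apply sum_congr rfl
    intro i _
    unfold ev
    split_ifs
    · rw [mul_one, mul_one]
    · rw [mul_zero, mul_zero, map_zero]

end Pool.Agent.H456.Conf
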