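import Mathlib

/-!
# A random zero-one matrix
-/

open Finset

open scoped Classical

namespace Pool.Agent.H456.Conf

variable {F : Type} [Field F]

/-- A truth value as an element of `F`. -/
def ev (b : Bool) : F := if b then 1 else 0

theorem ev_injective : Function.Injective (ev : Bool → F) := by
  intro a b h
  cases a <;> cases b <;> simp_all [ev]

variable {r : ℕ}

/-- A family of matrices whose members are determined by the entries outside `T`. -/
theorem card_determined (S : Finset (Fin r → Fin r → Bool)) (T : Finset (Fin r × Fin r))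
    (h : ∀ A ∈ S, ∀ A' ∈ S, (∀ i j, (i, j) ∉ T → A i j = A' i j) → A = A') :
    #S * 2 ^ #T ≤ 2 ^ (r * r) := by
  have h1 : #(S ×ˢ T.powerset) ≤ #(univ : Finset (Finset (Fin r × Fin r))) := by
    apply card_le_card_of_injOn (fun p => (univ.filter fun e : Fin r × Fin r =>
      if e ∈ T then e ∈ p.2 else p.1 e.1 e.2 = true))
    · intro p _
      exact mem_coe.2 (mem_univ _)
    · rintro ⟨A, g⟩ hp ⟨A', g'⟩ hp' heq
      rw [mem_coe, mem_product] at hp hp'
      simp only at heq hp hp'
      have h2 : ∀ e : Fin r × Fin r, (if e ∈ T then e ∈ g else A e.1 e.2 = true) ↔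
          (if e ∈ T then e ∈ g' else A' e.1 e.2 = true) := by
        intro e
        have := Finset.ext_iff.1 heq e
        simpa only [mem_filter, mem_univ, true_and] using this
      have hA : A = A' := by
        apply h A hp.1 A' hp'.1
        intro i j hij
        have := h2 (i, j)
        rw [if_neg hij, if_neg hij] at this
        exact Bool.eq_iff_iff.2 this
      have hg : g = g' := by
        ext e
        by_cases he : e ∈ T
        · have := h2 e
          rwa [if_pos he, if_pos he] at this
        · exact ⟨fun h' => absurd (mem_powerset.1 hp.2 h') he,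
            fun h' => absurd (mem_powerset.1 hp'.2 h') he⟩
      rw [hA, hg]
  rw [card_product, card_powerset, card_univ, Fintype.card_finset, Fintype.card_prod,
    Fintype.card_fin] at h1
  exact h1

/-- Matrices with a given low-weight row relation. -/
theorem card_row_rel {α : Type} [Fintype α] (a : α → Fin r) (c : α → F)
    (hne : (∑ t, c t • (Pi.single (a t) 1 : Fin r → F)) ≠ 0) (J : Finset (Fin r)) :
    #(univ.filter fun A : Fin r → Fin r → Bool => ∀ j ∈ J, ∑ t, c t * ev (A (a t) j) = 0) *
      2 ^ #J ≤ 2 ^ (r * r) := by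
  set x : Fin r → F := ∑ t, c t • (Pi.single (a t) 1 : Fin r → F) with hx
  have hxsum : ∀ (f : Fin r → F), ∑ t, c t * f (a t) = ∑ i, x i * f i := by
    intro f
    have : ∀ i, x i = ∑ t, if a t = i then c t else 0 := by
      intro i
      rw [hx, Finset.sum_apply]
      apply sum_congr rfl
      intro t _
      rw [Pi.smul_apply, Pi.single_apply, smul_eq_mul]
      by_cases h : a t = i
      · rw [if_pos h, if_pos h.symm, mul_one]
      · rw [if_neg h, if_neg (Ne.symm h), mul_zero]
    simp_rw [this, sum_mul, ite_mul, zero_mul]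
    rw [sum_comm]
    simp
  obtain ⟨i₀, hi₀⟩ : ∃ i, x i ≠ 0 := by
    by_contra hall
    push Not at hall
    exact hne (funext hall)
  have := card_determined (univ.filter fun A : Fin r → Fin r → Bool =>
    ∀ j ∈ J, ∑ t, c t * ev (A (a t) j) = 0) (({i₀} : Finset (Fin r)) ×ˢ J) (by
      intro A hA A' hA' hAA
      rw [mem_filter] at hA hA'
      funext i j
      by_cases hij : (i, j) ∈ ({i₀} : Finset (Fin r)) ×ˢ J
      · rw [mem_product, mem_singleton] at hij
        obtain ⟨hi, hj⟩ := hij
        simp only at hi hj
        subst hi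
        have h1 := hA.2 j hj
        have h2 := hA'.2 j hj
        rw [hxsum (fun i' => ev (A i' j))] at h1
        rw [hxsum (fun i' => ev (A' i' j))] at h2
        rw [← h2, ← add_sum_erase _ _ (mem_univ i), ← add_sum_erase _ _ (mem_univ i)] at h1
        have h3 : ∑ i' ∈ univ.erase i, x i' * ev (A i' j) =
            ∑ i' ∈ univ.erase i, x i' * ev (A' i' j) := by
          apply sum_congr rfl
          intro i' hi'
          rw [hAA i' j (by
            rw [mem_product, mem_singleton]
            exact fun h => (mem_erase.1 hi').1 h.1)]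
        rw [h3] at h1
        exact ev_injective (mul_left_cancel₀ hi₀ (add_right_cancel h1))
      · exact hAA i j hij)
  rwa [card_product, card_singleton, one_mul] at this

theorem card_transpose (p : (Fin r → Fin r → Bool) → Prop) :
    #(univ.filter fun A : Fin r → Fin r → Bool => p fun i j => A j i) = #(univ.filter p) := by
  apply card_bij (fun A _ => fun i j => A j i)
  · intro A hA
    rw [mem_filter] at hA ⊢
    exact ⟨mem_univ _, hA.2⟩
  · intro A _ A' _ h
    funext i j
    exact congrFun (congrFun h j) i
  · intro A hA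
    rw [mem_filter] at hA
    exact ⟨fun i j => A j i, mem_filter.2 ⟨mem_univ _, hA.2⟩, rfl⟩

/-- Matrices in which the rows outside the range of `β` are prescribed combinations of the rows in
the range of `β`, on one of two complementary blocks. -/
def blk {k : ℕ} (P Q : Finset (Fin r)) (β : Fin k → Fin r) (w : Fin r → Fin k → F)
    (A : Fin r → Fin r → Bool) : Prop :=
  ∀ b, (∀ t, β t ≠ b) → ∀ j, (b ∈ P ∧ j ∉ Q ∨ b ∉ P ∧ j ∈ Q) →
    ev (A b j) = ∑ t, w b t * ev (A (β t) j)

theorem card_blk {k m : ℕ} (P Q : Finset (Fin r)) (β : Fin k → Fin r) (w : Fin r → Fin k → F)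
    (h1 : 2 * m ≤ #P + #Q) (h2 : #P + #Q ≤ r) :
    #(univ.filter fun A : Fin r → Fin r → Bool => blk P Q β w A) * 2 ^ (r * m) ≤
      2 ^ (r * r + k * r) := by
  set T₀ : Finset (Fin r × Fin r) := P ×ˢ Qᶜ ∪ Pᶜ ×ˢ Q with hT₀
  set T := T₀ \ (univ.image β ×ˢ univ) with hT
  have hcard : r * m ≤ #T + k * r := by
    have h3 : #T₀ = #P * (r - #Q) + (r - #P) * #Q := by
      rw [hT₀, card_union_of_disjoint, card_product, card_product, card_compl, card_compl,
        Fintype.card_fin]
      rw [disjoint_left]
      rintro ⟨i, j⟩ h h'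
      rw [mem_product] at h h'
      exact (mem_compl.1 h'.1) h.1
    have h4 : #T₀ ≤ #T + k * r := by
      have h5 : #T₀ ≤ #T + #(univ.image β ×ˢ (univ : Finset (Fin r))) := by
        exact card_le_card_sdiff_add_card
      have h6 : #(univ.image β ×ˢ (univ : Finset (Fin r))) ≤ k * r := by
        rw [card_product, card_univ, Fintype.card_fin]
        apply Nat.mul_le_mul_right
        exact card_image_le.trans (by rw [card_univ, Fintype.card_fin])
      omega
    have h5 : r * m ≤ #T₀ := by
      rw [h3]
      obtain ⟨u, hu⟩ : ∃ u, r = #P + #Q + u := ⟨r - (#P + #Q), by omega⟩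
      have e1 : r - #Q = #P + u := by omega
      have e2 : r - #P = #Q + u := by omega
      rw [e1, e2]
      have h6 : 2 * (r * m) ≤ r * (#P + #Q) := by
        calc 2 * (r * m) = r * (2 * m) := by ring
          _ ≤ r * (#P + #Q) := Nat.mul_le_mul_left _ h1
      have h7 : ∀ p s : ℕ, (p + s + u) * (p + s) ≤ 2 * (p * (p + u) + (s + u) * s) := by
        intro p s
        have h8 : 2 * (p * s) ≤ p * p + s * s := by
          have := two_mul_le_add_sq (p : ℤ) (s : ℤ)
          zify
          nlinarith [this]
        nlinarith [Nat.zero_le (u * p), Nat.zero_le (u * s)]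
      have h8 := h7 #P #Q
      rw [← hu] at h8
      omega
    omega
  have h3 := card_determined (univ.filter fun A : Fin r → Fin r → Bool => blk P Q β w A) T (by
    intro A hA A' hA' hAA
    rw [mem_filter] at hA hA'
    funext i j
    by_cases hij : (i, j) ∈ T
    · rw [hT, mem_sdiff, hT₀, mem_union, mem_product, mem_product, mem_product] at hij
      have hi : ∀ t, β t ≠ i := fun t ht => hij.2 ⟨mem_image.2 ⟨t, mem_univ _, ht⟩, mem_univ _⟩
      have hpq : i ∈ P ∧ j ∉ Q ∨ i ∉ P ∧ j ∈ Q := by
        rcases hij.1 with h' | h'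
        · exact Or.inl ⟨h'.1, mem_compl.1 h'.2⟩
        · exact Or.inr ⟨mem_compl.1 h'.1, h'.2⟩
      have e1 := hA.2 i hi j hpq
      have e2 := hA'.2 i hi j hpq
      have e3 : ∀ t, A (β t) j = A' (β t) j := by
        intro t
        apply hAA
        rw [hT, mem_sdiff]
        exact fun h' => h'.2 (mem_product.2 ⟨mem_image_of_mem _ (mem_univ _), mem_univ _⟩)
      have e4 : ev (F := F) (A i j) = ev (A' i j) := by
        rw [e1, e2]
        exact sum_congr rfl fun t _ => by rw [e3 t]
      exact ev_injective e4
    · exact hAA i j hij)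
  calc #(univ.filter fun A : Fin r → Fin r → Bool => blk P Q β w A) * 2 ^ (r * m)
      ≤ #(univ.filter fun A : Fin r → Fin r → Bool => blk P Q β w A) * 2 ^ (#T + k * r) :=
        Nat.mul_le_mul_left _ (Nat.pow_le_pow_right (by norm_num) hcard)
    _ = (#(univ.filter fun A : Fin r → Fin r → Bool => blk P Q β w A) * 2 ^ #T) *
          2 ^ (k * r) := by rw [pow_add, mul_assoc]
    _ ≤ 2 ^ (r * r) * 2 ^ (k * r) := Nat.mul_le_mul_right _ h3
    _ = 2 ^ (r * r + k * r) := by rw [pow_add]

end Pool.Agent.H456.Conf
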